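import Pool.Agent.Helper64.PQ.Goals

set_option autoImplicit false

/-! Project PQ, goal A1: the gate lemma. -/

namespace Pool.Agent.Helper42.PQ

open Pool.Agent.Helper64.PQ

theorem last_index {X : Type} (a : ℕ → X) (W : X) (n k0 : ℕ) (hk0 : k0 ≤ n) (h : a k0 = W) :
    ∃ k ≤ n, a k = W ∧ ∀ i, k < i → i ≤ n → a i ≠ W := by
  classical
  refine ⟨Nat.findGreatest (fun i => a i = W) n, Nat.findGreatest_le n, ?_, ?_⟩
  · exact Nat.findGreatest_spec (P := fun i => a i = W) hk0 h
  · intro i hi hin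
    exact Nat.findGreatest_is_greatest (P := fun i => a i = W) hi hin

/-- Behrstock for three points different from `y`. -/
theorem stepL {X : Type} {t : ℕ} {d : X → X → X → ℕ} (h : Proj t d) {y W Z c : X}
    (hW : W ≠ y) (hZ : Z ≠ y) (_hc : c ≠ y) (hWZ : W ≠ Z) (hcW : c ≠ W) (hcZ : c ≠ Z)
    (h1 : 2 * t < d W y c) (h2 : d W y Z ≤ t) : d Z y W ≤ d Z y c + t := by
  have e1 := h.tri W y Z c hW.symm hWZ.symm hcW
  have e2 : t < d W Z c := by omega
  have e3 := h.beh W Z c hWZ hcZ.symm hcW.symm e2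
  have e4 := h.tri Z y c W hZ.symm hcZ hWZ
  have e5 := h.symm Z c W hcZ hWZ
  omega

theorem behy {X : Type} {t : ℕ} {d : X → X → X → ℕ} (h : Proj t d) {y W Z : X}
    (hW : W ≠ y) (hZ : Z ≠ y) (hWZ : W ≠ Z) (h1 : t < d W y Z) : d Z y W ≤ t := by
  have e1 := h.symm W y Z hW.symm hWZ.symm
  have e2 := h.beh W Z y hWZ hZ hW (by omega)
  have e3 := h.symm Z y W hZ.symm hWZ
  omega

theorem goalA1 : GoalA1 := by
  intro X t d h y n
  induction n using Nat.strong_induction_on with
  | _ n ih =>
  intro a hy hr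
  rcases n with _ | n
  · exact ⟨0, le_rfl, fun i hi => Or.inl (by have : i = 0 := by omega
                                             rw [this])⟩
  have tp := h.pos
  obtain ⟨k0, hk0, hg0⟩ := ih n (by omega) a (fun i hi => hy i (by omega))
    (fun i hi => hr i (by omega))
  obtain ⟨k, hk, hkW, hlast⟩ := last_index a (a k0) n k0 hk0 rfl
  rw [← hkW] at hg0 hlast
  have hg : ∀ i ≤ n, a i ≠ a k → 2 * t < d (a k) y (a i) := fun i hi hne =>
    (hg0 i hi).resolve_left hne
  have hW : a k ≠ y := hy k (by omega)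
  have hZ : a (n + 1) ≠ y := hy (n + 1) le_rfl
  -- the gate is `a k` as soon as it works for the last element
  have gW : (a (n + 1) = a k ∨ 2 * t < d (a k) y (a (n + 1))) →
      ∃ k ≤ n + 1, ∀ i ≤ n + 1, a i = a k ∨ 2 * t < d (a k) y (a i) := by
    intro hh
    refine ⟨k, by omega, fun i hi => ?_⟩
    rcases Nat.lt_or_ge n i with h1 | h1
    · have : i = n + 1 := by omega
      rw [this]
      exact hh
    · exact hg0 i h1
  by_cases hZW : a (n + 1) = a k
  · exact gW (Or.inl hZW)
  -- the gate is the last element as soon as it is far from `a k`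
  have gZ : 3 * t < d (a (n + 1)) y (a k) →
      ∃ k ≤ n + 1, ∀ i ≤ n + 1, a i = a k ∨ 2 * t < d (a k) y (a i) := by
    intro hh
    refine ⟨n + 1, le_rfl, fun i hi => ?_⟩
    by_cases hiZ : a i = a (n + 1)
    · exact Or.inl hiZ
    right
    by_cases hiW : a i = a k
    · rw [hiW]
      omega
    have hin : i ≤ n := by
      rcases Nat.lt_or_ge n i with h1 | h1
      · exact absurd (by rw [show i = n + 1 by omega]) hiZ
      · exact h1
    have h2 : d (a k) y (a (n + 1)) ≤ t := behy h hZ hW hZW (by omega)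
    have h3 := stepL h hW hZ (hy i hi) (Ne.symm hZW) hiW hiZ (hg i hin hiW) h2
    omega
  rcases Nat.lt_or_ge k n with hkn | hkn
  swap
  · -- case 1
    have hkn' : k = n := by omega
    obtain ⟨-, h1 | h1⟩ := hr n (by omega)
    · rw [← hkn'] at h1
      subst hkn'
      exact gW (Or.inr (by omega))
    · subst hkn'
      exact gZ (by omega)
  -- case 2
  have hb1 : a (k + 1) ≠ a k := hlast (k + 1) (by omega) (by omega)
  have hb2 : 2 * t < d (a k) y (a (k + 1)) := hg (k + 1) (by omega) hb1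
  have hby : a (k + 1) ≠ y := hy (k + 1) (by omega)
  have hb3 : 4 * t < d (a k) y (a (k + 1)) := by
    obtain ⟨-, h1 | h1⟩ := hr k (by omega)
    · exact h1
    · have := behy h hby hW hb1 (by omega)
      omega
  obtain ⟨l, hl, hgl⟩ := ih (n - k) (by omega) (fun i => a (k + 1 + i))
    (fun i hi => hy _ (by omega)) (fun i hi => hr (k + 1 + i) (by omega))
  have hgl' : ∀ i, k < i → i ≤ n + 1 → a i ≠ a (k + 1 + l) →
      2 * t < d (a (k + 1 + l)) y (a i) := by
    intro i hi1 hi2 hi3
    have := hgl (i - (k + 1)) (by omega)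
    simp only [show k + 1 + (i - (k + 1)) = i by omega] at this
    exact this.resolve_left hi3
  have hV : a (k + 1 + l) ≠ y := hy _ (by omega)
  by_cases hcase : ∃ l', k < l' ∧ l' ≤ n ∧ a l' = a (k + 1 + l)
  · -- case 2a
    obtain ⟨l', hl1, hl2, hl3⟩ := hcase
    have hVW : a (k + 1 + l) ≠ a k := by
      rw [← hl3]
      exact hlast l' hl1 hl2
    have c1 : 2 * t < d (a k) y (a (k + 1 + l)) := by
      rw [← hl3]
      exact hg l' hl2 (hlast l' hl1 hl2)
    have c2 : d (a (k + 1 + l)) y (a k) ≤ t := behy h hW hV (Ne.symm hVW) (by omega)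
    -- claim for a point c
    have c3 : ∀ c, c ≠ y → c ≠ a k → c ≠ a (k + 1 + l) → 2 * t < d (a (k + 1 + l)) y c →
        d (a k) (a (k + 1 + l)) c ≤ t := by
      intro c hcy hcW hcV hc
      have e1 := h.tri (a (k + 1 + l)) y (a k) c hV.symm (Ne.symm hVW) hcV
      exact h.beh (a (k + 1 + l)) (a k) c hVW (Ne.symm hcW) (Ne.symm hcV) (by omega)
    have c4 : 3 * t < d (a k) y (a (k + 1 + l)) := by
      by_cases hh : a (k + 1) = a (k + 1 + l)
      · rw [← hh]
        omega
      · have e1 := c3 (a (k + 1)) hby hb1 hh (hgl' (k + 1) (by omega) (by omega) hh)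
        have e2 := h.tri (a k) y (a (k + 1 + l)) (a (k + 1)) hW.symm hVW hb1
        omega
    refine gW (Or.inr ?_)
    by_cases hh : a (n + 1) = a (k + 1 + l)
    · rw [hh]
      exact c1
    · have e1 := c3 (a (n + 1)) hZ hZW hh (hgl' (n + 1) (by omega) (by omega) hh)
      have e2 := h.tri (a k) y (a (n + 1)) (a (k + 1 + l)) hW.symm hZW hVW
      have e3 := h.symm (a k) (a (n + 1)) (a (k + 1 + l)) hZW hVW
      omega
  · -- case 2b
    push Not at hcase
    have hlZ : k + 1 + l = n + 1 := by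
      by_contra hne
      exact hcase (k + 1 + l) (by omega) (by omega) rfl
    rw [hlZ] at hcase hgl'
    have hfar : ∀ i, k < i → i ≤ n → 2 * t < d (a (n + 1)) y (a i) := fun i h1 h2 =>
      hgl' i h1 (by omega) (hcase i h1 h2)
    rcases Nat.lt_or_ge t (d (a k) y (a (n + 1))) with h1 | h1
    · have e1 : d (a (n + 1)) y (a k) ≤ t := behy h hW hZ (Ne.symm hZW) h1
      have e2 := hfar (k + 1) (by omega) (by omega)
      have e3 := h.tri (a (n + 1)) y (a k) (a (k + 1)) hZ.symm (Ne.symm hZW)
        (hcase (k + 1) (by omega) (by omega))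
      have e4 := h.beh (a (n + 1)) (a k) (a (k + 1)) hZW (Ne.symm hb1)
        (Ne.symm (hcase (k + 1) (by omega) (by omega))) (by omega)
      have e5 := h.tri (a k) y (a (n + 1)) (a (k + 1)) hW.symm hZW hb1
      exact gW (Or.inr (by omega))
    · have hny : a n ≠ y := hy n (by omega)
      have hnZ : a n ≠ a (n + 1) := hcase n hkn le_rfl
      have hnW : a n ≠ a k := hlast n hkn le_rfl
      have e1 := hfar n hkn le_rfl
      have e2 : 4 * t < d (a (n + 1)) y (a n) := by
        obtain ⟨-, h2 | h2⟩ := hr n (by omega)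
        · have := behy h hny hZ hnZ (by omega)
          omega
        · exact h2
      have e3 := hg n le_rfl hnW
      -- d Z y W ≥ d Z y (a n) - t
      have e4 := h.tri (a k) y (a (n + 1)) (a n) hW.symm hZW hnW
      have e5 := h.beh (a k) (a (n + 1)) (a n) (Ne.symm hZW) (Ne.symm hnZ) (Ne.symm hnW)
        (by omega)
      have e6 := h.tri (a (n + 1)) y (a k) (a n) hZ.symm (Ne.symm hZW) hnZ
      exact gZ (by omega)

end Pool.Agent.Helper42.PQ
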